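import Pool.Agent.helper54.UG.Spec3

/-!
# Project ug (MP_a2a22c_al), row SGL: the sign lemma for signature `(n-1, 1)`
-/

set_option autoImplicit false

namespace Pool.Agent.UG

open Matrix Pool.Agent.H48SL

/-- Two forms: if `s` is positive for `B` and negative for `Q` and `z` is positive for both, then
there is a rational `Q`-isotropic vector which is positive for `B`. -/
lemma SGL_core {V : Type*} [AddCommGroup V] [Module ℚ V] (B Q : LinearMap.BilinForm ℚ V)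
    (hB : ∀ x y, B x y = B y x) (hQ : ∀ x y, Q x y = Q y x) (s z p : V)
    (h1 : 0 < B s s) (h2 : Q s s < 0) (h3 : 0 < B z z) (h4 : 0 < Q z z) (h5 : 0 ≤ B s z)
    (h6 : Q p p = 0) (h7 : Q p s ≠ 0) : ∃ x, Q x x = 0 ∧ 0 < B x x := by
  by_contra hcon
  push Not at hcon
  have hw : ∀ (C : LinearMap.BilinForm ℚ V), (∀ x y, C x y = C y x) → ∀ t : ℚ,
      C ((1 - t) • s + t • z) ((1 - t) • s + t • z) =
        (1 - t) ^ 2 * C s s + 2 * t * (1 - t) * C s z + t ^ 2 * C z z := by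
    intro C hC t
    simp only [map_add, map_smul, LinearMap.add_apply, LinearMap.smul_apply, smul_eq_mul]
    rw [hC z s]
    ring
  have hl : ∀ (C : LinearMap.BilinForm ℚ V), ∀ t : ℚ,
      C p ((1 - t) • s + t • z) = (1 - t) * C p s + t * C p z := by
    intro C t
    simp only [map_add, map_smul, smul_eq_mul]
  have hr : ∀ w : V, Q w w ^ 2 * B p p - 4 * Q w w * Q p w * B p w + 4 * Q p w ^ 2 * B w w ≤ 0 := by
    intro w
    have e := hcon (Q w w • p - (2 * Q p w) • w) (by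
      simp only [map_sub, map_smul, LinearMap.sub_apply, LinearMap.smul_apply, smul_eq_mul]
      rw [h6, hQ w p]
      ring)
    simp only [map_sub, map_smul, LinearMap.sub_apply, LinearMap.smul_apply, smul_eq_mul] at e
    rw [hB w p] at e
    linarith [e]
  set q : ℝ → ℝ := fun t => (1 - t) ^ 2 * ((Q s s : ℚ) : ℝ) + 2 * t * (1 - t) * ((Q s z : ℚ) : ℝ) +
    t ^ 2 * ((Q z z : ℚ) : ℝ) with hqdef
  set b : ℝ → ℝ := fun t => (1 - t) ^ 2 * ((B s s : ℚ) : ℝ) + 2 * t * (1 - t) * ((B s z : ℚ) : ℝ) +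
    t ^ 2 * ((B z z : ℚ) : ℝ) with hbdef
  set l : ℝ → ℝ := fun t => (1 - t) * ((Q p s : ℚ) : ℝ) + t * ((Q p z : ℚ) : ℝ) with hldef
  set m : ℝ → ℝ := fun t => (1 - t) * ((B p s : ℚ) : ℝ) + t * ((B p z : ℚ) : ℝ) with hmdef
  have hqc : Continuous q := by rw [hqdef]; fun_prop
  have hbc : Continuous b := by rw [hbdef]; fun_prop
  have hlc : Continuous l := by rw [hldef]; fun_prop
  have hmc : Continuous m := by rw [hmdef]; fun_prop
  have hq : ∀ t : ℚ, q (t : ℝ) = ((Q ((1 - t) • s + t • z) ((1 - t) • s + t • z) : ℚ) : ℝ) := by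
    intro t
    rw [hw Q hQ t]
    push_cast
    rfl
  have hb : ∀ t : ℚ, b (t : ℝ) = ((B ((1 - t) • s + t • z) ((1 - t) • s + t • z) : ℚ) : ℝ) := by
    intro t
    rw [hw B hB t]
    push_cast
    rfl
  have hl' : ∀ t : ℚ, l (t : ℝ) = ((Q p ((1 - t) • s + t • z) : ℚ) : ℝ) := by
    intro t
    rw [hl Q t]
    push_cast
    rfl
  have hm' : ∀ t : ℚ, m (t : ℝ) = ((B p ((1 - t) • s + t • z) : ℚ) : ℝ) := by
    intro t
    rw [hl B t]
    push_cast
    rfl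
  have hF : ∀ t : ℝ, q t ^ 2 * ((B p p : ℚ) : ℝ) - 4 * q t * l t * m t + 4 * l t ^ 2 * b t ≤ 0 := by
    intro t
    refine Rat.denseRange_cast.induction_on (p := fun t : ℝ =>
      q t ^ 2 * ((B p p : ℚ) : ℝ) - 4 * q t * l t * m t + 4 * l t ^ 2 * b t ≤ 0) t ?_ ?_
    · exact isClosed_le (by fun_prop) continuous_const
    · intro t
      have e := hr ((1 - t) • s + t • z)
      show q (t : ℝ) ^ 2 * ((B p p : ℚ) : ℝ) - 4 * q (t : ℝ) * l (t : ℝ) * m (t : ℝ) +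
        4 * l (t : ℝ) ^ 2 * b (t : ℝ) ≤ 0
      rw [hq, hb, hl', hm']
      exact_mod_cast e
  -- the sign change of `Q`
  have q0 : q 0 = ((Q s s : ℚ) : ℝ) := by simp [hqdef]
  have q1 : q 1 = ((Q z z : ℚ) : ℝ) := by simp [hqdef]
  have h2' : ((Q s s : ℚ) : ℝ) < 0 := by exact_mod_cast h2
  have h4' : (0 : ℝ) < ((Q z z : ℚ) : ℝ) := by exact_mod_cast h4
  have h1' : (0 : ℝ) < ((B s s : ℚ) : ℝ) := by exact_mod_cast h1
  have h3' : (0 : ℝ) < ((B z z : ℚ) : ℝ) := by exact_mod_cast h3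
  have h5' : (0 : ℝ) ≤ ((B s z : ℚ) : ℝ) := by exact_mod_cast h5
  have h7' : ((Q p s : ℚ) : ℝ) ≠ 0 := by exact_mod_cast h7
  obtain ⟨t, ht, hqt⟩ := intermediate_value_Icc (zero_le_one' ℝ) hqc.continuousOn
    (show (0 : ℝ) ∈ Set.Icc (q 0) (q 1) by rw [q0, q1]; exact ⟨h2'.le, h4'.le⟩)
  have hbt : 0 < b t := by
    have ha : 0 ≤ 2 * t * (1 - t) * ((B s z : ℚ) : ℝ) :=
      mul_nonneg (mul_nonneg (by linarith [ht.1]) (by linarith [ht.2])) h5'
    have hb1 : 0 ≤ (1 - t) ^ 2 * ((B s s : ℚ) : ℝ) := mul_nonneg (sq_nonneg _) h1'.le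
    have hb2 : 0 ≤ t ^ 2 * ((B z z : ℚ) : ℝ) := mul_nonneg (sq_nonneg _) h3'.le
    rcases eq_or_ne t 0 with h0 | h0
    · show 0 < (1 - t) ^ 2 * ((B s s : ℚ) : ℝ) + 2 * t * (1 - t) * ((B s z : ℚ) : ℝ) +
        t ^ 2 * ((B z z : ℚ) : ℝ)
      rw [h0]
      simpa using h1'
    · have hb3 : 0 < t ^ 2 * ((B z z : ℚ) : ℝ) := mul_pos (by positivity) h3'
      show 0 < (1 - t) ^ 2 * ((B s s : ℚ) : ℝ) + 2 * t * (1 - t) * ((B s z : ℚ) : ℝ) +
        t ^ 2 * ((B z z : ℚ) : ℝ)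
      linarith
  have hlt : l t = 0 := by
    have e := hF t
    rw [hqt] at e
    have e2 : l t ^ 2 * b t ≤ 0 := by nlinarith [e]
    by_contra hne
    have : 0 < l t ^ 2 * b t := mul_pos (by positivity) hbt
    linarith
  -- `t` is rational
  have hd : Q p z - Q p s ≠ 0 := by
    intro hd
    have hd' : ((Q p z : ℚ) : ℝ) = ((Q p s : ℚ) : ℝ) := by
      have : Q p z = Q p s := sub_eq_zero.1 hd
      exact_mod_cast this
    apply h7'
    have : l t = ((Q p s : ℚ) : ℝ) := by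
      show (1 - t) * ((Q p s : ℚ) : ℝ) + t * ((Q p z : ℚ) : ℝ) = _
      rw [hd']
      ring
    rw [← this, hlt]
  have hd' : ((Q p z : ℚ) : ℝ) - ((Q p s : ℚ) : ℝ) ≠ 0 := by exact_mod_cast hd
  have hrat : t = ((-(Q p s) / (Q p z - Q p s) : ℚ) : ℝ) := by
    push_cast
    rw [eq_div_iff hd']
    have : (1 - t) * ((Q p s : ℚ) : ℝ) + t * ((Q p z : ℚ) : ℝ) = 0 := hlt
    linarith
  set τ : ℚ := -(Q p s) / (Q p z - Q p s) with hτ
  have e1 : Q ((1 - τ) • s + τ • z) ((1 - τ) • s + τ • z) = 0 := by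
    have := hq τ
    rw [← hrat, hqt] at this
    exact_mod_cast this.symm
  have e2 : 0 < B ((1 - τ) • s + τ • z) ((1 - τ) • s + τ • z) := by
    have := hb τ
    rw [← hrat] at this
    rw [this] at hbt
    exact_mod_cast hbt
  exact absurd e2 (not_lt.2 (hcon _ e1))

/-- A quadratic polynomial which is positive at `0` is positive near `0`. -/
lemma SGL_pos (a b c : ℚ) (ha : 0 < a) : ∃ ε : ℚ, 0 < ε ∧ ∀ t, 0 < t → t ≤ ε →
    0 < a + b * t + c * t ^ 2 := by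
  refine ⟨min 1 (a / (2 * (|b| + |c| + 1))), by positivity, fun t h0 h1 => ?_⟩
  have hD : 0 < |b| + |c| + 1 := by positivity
  have ht1 : t ≤ 1 := h1.trans (min_le_left _ _)
  have ht2 : t * (|b| + |c| + 1) ≤ a / 2 := by
    have := h1.trans (min_le_right _ _)
    rw [le_div_iff₀ (by positivity)] at this
    linarith
  have hb : -(|b| * t) ≤ b * t := by nlinarith [neg_abs_le b]
  have hc : -(|c| * t) ≤ c * t ^ 2 := by
    have e1 : -(|c|) * t ^ 2 ≤ c * t ^ 2 := mul_le_mul_of_nonneg_right (neg_abs_le c) (sq_nonneg t)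
    have e2 : |c| * t ^ 2 ≤ |c| * t := mul_le_mul_of_nonneg_left (by nlinarith) (abs_nonneg c)
    linarith
  nlinarith

/-- The form of `S` as a bilinear form. -/
noncomputable def SGL_B {n : ℕ} (S : MQ n) : LinearMap.BilinForm ℚ (Fin n → ℚ) := Matrix.toBilin' S

lemma SGL_B_apply {n : ℕ} (S : MQ n) (x y : Fin n → ℚ) : SGL_B S x y = bf S x y := by
  rw [SGL_B, Matrix.toBilin'_apply', bf]

/-- The form of `S` on the images by `G`. -/
noncomputable def SGL_Q {n : ℕ} (S G : MQ n) : LinearMap.BilinForm ℚ (Fin n → ℚ) :=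
  (SGL_B S).compl₁₂ G.mulVecLin G.mulVecLin

lemma SGL_Q_apply {n : ℕ} (S G : MQ n) (x y : Fin n → ℚ) :
    SGL_Q S G x y = bf S (G *ᵥ x) (G *ᵥ y) := by
  rw [SGL_Q, LinearMap.compl₁₂_apply, SGL_B_apply]
  rfl

lemma SGL_symm {n : ℕ} {S : MQ n} (hS : Sᵀ = S) (x y : Fin n → ℚ) : bf S x y = bf S y x := by
  unfold bf
  rw [dotProduct_mulVec, ← mulVec_transpose, hS, dotProduct_comm]

theorem SGL : SGL_stmt := by
  intro n hn S hS hdet u₀ hu hpos g v hv hgv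
  set G := qg g with hG
  have hGi : qg g⁻¹ * G = 1 := qg_inv_mul g
  have hGj : G * qg g⁻¹ = 1 := qg_mul_inv g
  have hGinj : ∀ x : Fin n → ℚ, G *ᵥ x = 0 → x = 0 := by
    intro x hx
    have := congrArg (fun w => qg g⁻¹ *ᵥ w) hx
    simpa only [mulVec_mulVec, hGi, one_mulVec, mulVec_zero] using this
  have hB : ∀ x y, SGL_B S x y = SGL_B S y x := fun x y => by
    rw [SGL_B_apply, SGL_B_apply, SGL_symm hS]
  have hQ : ∀ x y, SGL_Q S G x y = SGL_Q S G y x := fun x y => by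
    rw [SGL_Q_apply, SGL_Q_apply, SGL_symm hS]
  have hv0 : v ≠ 0 := by
    rintro rfl
    simp [bf] at hgv
  -- `v` is not orthogonal to `g v`
  have hvg : SGL_B S v (G *ᵥ v) ≠ 0 := by
    intro h0
    have h0' : SGL_B S (G *ᵥ v) v = 0 := by rw [hB, h0]
    have hvv : SGL_B S v v = 0 := by rw [SGL_B_apply, hv]
    have hgg : SGL_B S (G *ᵥ v) (G *ᵥ v) < 0 := by rw [SGL_B_apply]; exact hgv
    -- the combination orthogonal to `u₀`
    set α := SGL_B S u₀ v with hα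
    set β := SGL_B S u₀ (G *ᵥ v) with hβ
    by_cases hα0 : α = 0
    · have := hpos v (by rw [← SGL_B_apply]; exact hα0) hv0
      rw [hv] at this
      exact lt_irrefl _ this
    · have hx : SGL_B S u₀ (α • (G *ᵥ v) - β • v) = 0 := by
        simp only [map_sub, map_smul, smul_eq_mul]
        rw [← hα, ← hβ]
        ring
      have hxx : SGL_B S (α • (G *ᵥ v) - β • v) (α • (G *ᵥ v) - β • v) < 0 := by
        simp only [map_sub, map_smul, LinearMap.sub_apply, LinearMap.smul_apply, smul_eq_mul]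
        rw [h0, h0', hvv]
        have : 0 < α ^ 2 := by positivity
        nlinarith
      have hne : α • (G *ᵥ v) - β • v ≠ 0 := by
        intro h
        rw [h] at hxx
        simp at hxx
      have := hpos _ (by rw [← SGL_B_apply]; exact hx) hne
      rw [← SGL_B_apply] at this
      exact lt_irrefl _ (this.trans hxx)
  -- a vector `x₀` with `B(v, x₀) > 0`
  have hSv : S *ᵥ v ≠ 0 := by
    intro h
    exact hv0 (eq_zero_of_mulVec_eq_zero hdet h)
  obtain ⟨x₀, hx₀⟩ : ∃ x₀, 0 < SGL_B S v x₀ := by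
    refine ⟨S *ᵥ v, ?_⟩
    rw [SGL_B_apply, SGL_symm hS]
    show 0 < (S *ᵥ v) ⬝ᵥ (S *ᵥ v)
    obtain ⟨i, hi⟩ := Function.ne_iff.1 hSv
    exact Finset.sum_pos' (fun j _ => mul_self_nonneg _) ⟨i, Finset.mem_univ _, mul_self_pos.2 hi⟩
  -- a vector `s`
  obtain ⟨s, hs1, hs2, hs3⟩ : ∃ s, 0 < SGL_B S s s ∧ SGL_Q S G s s < 0 ∧
      SGL_Q S G (qg g⁻¹ *ᵥ v) s ≠ 0 := by
    obtain ⟨ε₁, h1, H1⟩ := SGL_pos (2 * SGL_B S v x₀) (SGL_B S x₀ x₀) 0 (by linarith)
    obtain ⟨ε₂, h2, H2⟩ := SGL_pos (-(SGL_Q S G v v)) (-(2 * SGL_Q S G v x₀)) (-(SGL_Q S G x₀ x₀))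
      (by rw [SGL_Q_apply]; linarith)
    obtain ⟨ε₃, h3, H3⟩ := SGL_pos (SGL_B S v (G *ᵥ v) ^ 2)
      (2 * SGL_B S v (G *ᵥ v) * SGL_B S v (G *ᵥ x₀)) (SGL_B S v (G *ᵥ x₀) ^ 2) (by positivity)
    set t := min ε₁ (min ε₂ ε₃) with ht
    have t0 : 0 < t := lt_min h1 (lt_min h2 h3)
    have e1 := H1 t t0 (min_le_left _ _)
    have e2 := H2 t t0 ((min_le_right _ _).trans (min_le_left _ _))
    have e3 := H3 t t0 ((min_le_right _ _).trans (min_le_right _ _))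
    refine ⟨v + t • x₀, ?_, ?_, ?_⟩
    · simp only [map_add, map_smul, LinearMap.add_apply, LinearMap.smul_apply, smul_eq_mul]
      rw [hB x₀ v, show SGL_B S v v = 0 by rw [SGL_B_apply, hv]]
      nlinarith
    · simp only [map_add, map_smul, LinearMap.add_apply, LinearMap.smul_apply, smul_eq_mul]
      rw [hQ x₀ v]
      nlinarith
    · intro h
      rw [SGL_Q_apply, ← SGL_B_apply, mulVec_mulVec, hGj, one_mulVec, mulVec_add, mulVec_smul,
        map_add, map_smul, smul_eq_mul] at h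
      have : (SGL_B S v (G *ᵥ v) + t * SGL_B S v (G *ᵥ x₀)) ^ 2 = 0 := by rw [h]; ring
      nlinarith
  -- a vector `z`
  obtain ⟨z, hz0, hz1, hz2⟩ : ∃ z : Fin n → ℚ, z ≠ 0 ∧ bf S u₀ z = 0 ∧ bf S u₀ (G *ᵥ z) = 0 := by
    let φ : (Fin n → ℚ) →ₗ[ℚ] (Fin 2 → ℚ) :=
      LinearMap.pi ![SGL_B S u₀, (SGL_B S u₀).comp G.mulVecLin]
    have hker : LinearMap.ker φ ≠ ⊥ := by
      apply LinearMap.ker_ne_bot_of_finrank_lt
      simp only [Module.finrank_fin_fun]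
      omega
    obtain ⟨z, hz, hz0⟩ := Submodule.exists_mem_ne_zero_of_ne_bot hker
    rw [LinearMap.mem_ker] at hz
    have a0 := congrFun hz 0
    have a1 := congrFun hz 1
    refine ⟨z, hz0, ?_, ?_⟩
    · rw [← SGL_B_apply]
      simpa [φ] using a0
    · rw [← SGL_B_apply]
      simpa [φ] using a1
  have hzB : 0 < SGL_B S z z := by rw [SGL_B_apply]; exact hpos z hz1 hz0
  have hzQ : 0 < SGL_Q S G z z := by
    rw [SGL_Q_apply]
    exact hpos _ hz2 (fun h => hz0 (hGinj z h))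
  have hp : SGL_Q S G (qg g⁻¹ *ᵥ v) (qg g⁻¹ *ᵥ v) = 0 := by
    rw [SGL_Q_apply, mulVec_mulVec, hGj, one_mulVec, hv]
  obtain ⟨x, hx1, hx2⟩ : ∃ x, SGL_Q S G x x = 0 ∧ 0 < SGL_B S x x := by
    rcases le_total 0 (SGL_B S s z) with h | h
    · exact SGL_core _ _ hB hQ s z _ hs1 hs2 hzB hzQ h hp hs3
    · refine SGL_core _ _ hB hQ s (-z) _ hs1 hs2 ?_ ?_ ?_ hp hs3
      · simpa using hzB
      · simpa using hzQ
      · simpa using h
  refine ⟨G *ᵥ x, ?_, ?_⟩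
  · rw [← SGL_Q_apply, hx1]
  · rw [mulVec_mulVec, hGi, one_mulVec, ← SGL_B_apply]
    exact hx2

end Pool.Agent.UG
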